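import Mathlib
import Pool.Agent.H672R3.ChainForms
import Pool.Agent.H672R3.SimGaps

/-!
# Common exponents and common indices for pairs `(a, d)`

The pairs `(c (1 - D ^ s), D ^ s)`: `a + q d = c + D ^ s (q - c)`.

The Maynard-Tao theorem for linear forms (`Pool.Agent.H362R2.CM.quarter`) and its version for
infinite sequences of linear forms (`Pool.Agent.H361R2.Inf.exact_seq_quant`) are taken from the
starting repository.
-/

set_option autoImplicit false

namespace Pool.Agent.Results.MP_8bf9c2_nt.CommonExponents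

open Pool.Agent.H672R3.Chains

/-- an admissible sequence of linear forms `A r * x + B r` whose leading coefficients form a
divisibility chain -/
def Adm (A : ℕ → ℕ) (B : ℕ → ℤ) : Prop :=
  (∀ r, 1 ≤ A r) ∧ (∀ r, A r ∣ A (r + 1)) ∧ Function.Injective (fun r => (A r, B r)) ∧
    ∀ p : ℕ, p.Prime → ∃ n : ℤ, ∀ r, ¬ (p : ℤ) ∣ A r * n + B r

/-- there are infinitely many primes `q` such that, for all `u` in `U`, `a + q d` is prime for
`d = A u / A j` and `a = B u - d B j` (so that `A u x + B u = a + (A j x + B j) d`) -/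
def Good (A : ℕ → ℕ) (B : ℕ → ℤ) (j : ℕ) (U : Finset ℕ) : Prop :=
  {q : ℕ | q.Prime ∧ ∀ u ∈ U, ∃ p : ℕ, p.Prime ∧
    ((B u - (A u / A j : ℕ) * B j) + q * (A u / A j : ℕ) : ℤ) = p}.Infinite

lemma chain_dvd {A : ℕ → ℕ} (h : ∀ r, A r ∣ A (r + 1)) {j u : ℕ} (hju : j ≤ u) : A j ∣ A u := by
  induction u, hju using Nat.le_induction with
  | base => exact dvd_rfl
  | succ u _ ih => exact ih.trans (h u)

lemma good_of_hit {A : ℕ → ℕ} {B : ℕ → ℤ} (hA : Adm A B) {V : Finset ℕ}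
    (h : Hit (fun r => (A r : ℤ)) B V) {j : ℕ} (hj : j ∈ V) {U : Finset ℕ} (hU : U ⊆ V)
    (hjU : ∀ u ∈ U, j < u) : Good A B j U := by
  have hAj : 0 < A j := hA.1 j
  have hinj : Set.InjOn (fun n : ℕ => ((A j : ℤ) * n + B j).toNat)
      {n : ℕ | ∀ r ∈ V, 0 < (A r : ℤ) * (n : ℤ) + B r ∧ Prime ((A r : ℤ) * (n : ℤ) + B r)} := by
    intro x hx y hy hxy
    have h1 := (hx j hj).1
    have h2 := (hy j hj).1
    have h3 : ((A j : ℤ) * x + B j) = ((A j : ℤ) * y + B j) := by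
      have h4 : (((A j : ℤ) * x + B j).toNat : ℤ) = (((A j : ℤ) * y + B j).toNat : ℤ) := by
        exact_mod_cast hxy
      rwa [Int.toNat_of_nonneg h1.le, Int.toNat_of_nonneg h2.le] at h4
    have h5 : (A j : ℤ) * x = (A j : ℤ) * y := by linarith
    exact_mod_cast mul_left_cancel₀ (by exact_mod_cast hAj.ne') h5
  refine (h.image hinj).mono ?_
  rintro _ ⟨n, hn, rfl⟩
  obtain ⟨h1, h2⟩ := hn j hj
  have h3 : ((((A j : ℤ) * n + B j).toNat : ℕ) : ℤ) = (A j : ℤ) * n + B j :=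
    Int.toNat_of_nonneg h1.le
  refine ⟨?_, fun u hu => ?_⟩
  · rw [Nat.prime_iff_prime_int, h3]
    exact h2
  · obtain ⟨g1, g2⟩ := hn u (hU hu)
    refine ⟨((A u : ℤ) * n + B u).toNat, ?_, ?_⟩
    · rw [Nat.prime_iff_prime_int, Int.toNat_of_nonneg g1.le]
      exact g2
    · rw [h3, Int.toNat_of_nonneg g1.le]
      obtain ⟨e, he⟩ := chain_dvd hA.2.1 (hjU u hu).le
      have h4 : A u / A j = e := by rw [he]; exact Nat.mul_div_cancel_left e hAj
      rw [h4, he]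
      push_cast
      ring

lemma adm_inj {A : ℕ → ℕ} {B : ℕ → ℤ} (h : Adm A B) :
    Function.Injective (fun r => ((A r : ℤ), B r)) := by
  intro x y hxy
  apply h.2.2.1
  have h1 := (Prod.ext_iff.1 hxy).1
  have h2 := (Prod.ext_iff.1 hxy).2
  simp only at h1 h2
  simp only [Prod.mk.injEq]
  exact ⟨by exact_mod_cast h1, h2⟩

theorem finite_part (k m : ℕ) : ∃ K : ℕ, ∀ (A : Fin k → ℕ → ℕ) (B : Fin k → ℕ → ℤ),
    (∀ i, Adm (A i) (B i)) → ∀ E : Finset ℕ, K ≤ E.card →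
      ∃ j ∈ E, ∃ U ⊆ E, U.card = m ∧ (∀ u ∈ U, j < u) ∧ ∀ i, Good (A i) (B i) j U := by
  classical
  obtain ⟨C0, hC0⟩ := hit_sub (m + 1)
  obtain ⟨C, hC⟩ := multi (m + 1) C0 k (m + 1)
  refine ⟨C, fun A B hAB E hE => ?_⟩
  obtain ⟨T, hTE, hTc, hT⟩ := hC ℕ E (fun i => Hit (fun r => (A i r : ℤ)) (B i)) (by
    intro i T _ hTc
    refine hC0 _ _ ?_ (adm_inj (hAB i)) (hAB i).2.2.2 T hTc
    intro r
    have := (hAB i).1 r
    exact_mod_cast (by omega : 0 < A i r)) hE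
  have hne : T.Nonempty := by rw [← Finset.card_pos]; omega
  refine ⟨T.min' hne, hTE (T.min'_mem hne), T.erase (T.min' hne),
    (Finset.erase_subset _ _).trans hTE, ?_, ?_, ?_⟩
  · rw [Finset.card_erase_of_mem (T.min'_mem hne), hTc]; rfl
  · intro u hu
    obtain ⟨h1, h2⟩ := Finset.mem_erase.1 hu
    exact lt_of_le_of_ne (T.min'_le u h2) (Ne.symm h1)
  · intro i
    refine good_of_hit (hAB i) (hT i T subset_rfl hTc) (T.min'_mem hne) (Finset.erase_subset _ _) ?_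
    intro u hu
    obtain ⟨h1, h2⟩ := Finset.mem_erase.1 hu
    exact lt_of_le_of_ne (T.min'_le u h2) (Ne.symm h1)

theorem infinite_part (A : ℕ → ℕ → ℕ) (B : ℕ → ℕ → ℤ) (hAB : ∀ i, Adm (A i) (B i)) (E : Set ℕ)
    (hE : E.Infinite) : ∃ J ⊆ E, J.Infinite ∧ ∀ i, ∃ N : ℕ, ∀ j ∈ J, N ≤ j →
      ∀ U : Finset ℕ, (U : Set ℕ) ⊆ J → (∀ u ∈ U, j < u) → Good (A i) (B i) j U := by
  classical
  obtain ⟨J, hJE, hJ, h⟩ := inf_all (fun i r => (A i r : ℤ)) B (by
    intro i r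
    have := (hAB i).1 r
    exact_mod_cast (by omega : 0 < A i r)) (fun i => adm_inj (hAB i)) (fun i => (hAB i).2.2.2) E hE
  refine ⟨J, hJE, hJ, fun i => ?_⟩
  obtain ⟨N, hN⟩ := h i
  refine ⟨N, fun j hj hNj U hU hjU => ?_⟩
  refine good_of_hit (hAB i) (hN (insert j U) ?_ ?_) (Finset.mem_insert_self _ _)
    (Finset.subset_insert _ _) hjU
  · rw [Finset.coe_insert]
    exact Set.insert_subset hj hU
  · intro u hu
    rcases Finset.mem_insert.1 hu with rfl | hu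
    · exact hNj
    · exact hNj.trans (hjU u hu).le

/-- infinitely many primes `q` such that `c (1 - D ^ s) + q D ^ s` is prime for all `s` in `S` -/
def PowGood (c : ℤ) (D : ℕ) (S : Finset ℕ) : Prop :=
  {q : ℕ | q.Prime ∧ ∀ s ∈ S, ∃ p : ℕ, p.Prime ∧
    (c * (1 - (D : ℤ) ^ s) + q * (D : ℤ) ^ s : ℤ) = p}.Infinite

lemma adm_pow {c : ℤ} {D : ℕ} (hD : 2 ≤ D) (hc : IsCoprime c (D : ℤ)) :
    Adm (fun r => D ^ r) (fun r => c * (1 - (D : ℤ) ^ r)) := by
  refine ⟨fun r => Nat.one_le_pow _ _ (by omega), fun r => pow_dvd_pow _ (Nat.le_succ r), ?_, ?_⟩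
  · intro x y hxy
    exact Nat.pow_right_injective hD (Prod.ext_iff.1 hxy).1
  · intro p hp
    by_cases hpc : (p : ℤ) ∣ c
    · refine ⟨1, fun r hd => ?_⟩
      have h1 : ((D ^ r : ℕ) : ℤ) * 1 + c * (1 - (D : ℤ) ^ r) = (D : ℤ) ^ r + c * (1 - (D : ℤ) ^ r) := by
        push_cast; ring
      rw [h1] at hd
      have h2 : (p : ℤ) ∣ (D : ℤ) ^ r := (Int.dvd_add_left (hpc.mul_right _)).1 hd
      have h3 : (p : ℤ) ∣ (D : ℤ) := (Nat.prime_iff_prime_int.1 hp).dvd_of_dvd_pow h2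
      exact (Nat.prime_iff_prime_int.1 hp).not_isUnit (hc.isUnit_of_dvd' hpc h3)
    · refine ⟨c, fun r hd => hpc ?_⟩
      have h1 : ((D ^ r : ℕ) : ℤ) * c + c * (1 - (D : ℤ) ^ r) = c := by push_cast; ring
      rwa [h1] at hd

lemma good_pow {c : ℤ} {D : ℕ} (hD : 2 ≤ D) {j : ℕ} {U : Finset ℕ} (hjU : ∀ u ∈ U, j < u)
    (h : Good (fun r => D ^ r) (fun r => c * (1 - (D : ℤ) ^ r)) j U) :
    PowGood c D (U.image (fun u => u - j)) := by
  refine h.mono ?_
  rintro q ⟨hq, hU⟩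
  refine ⟨hq, fun s hs => ?_⟩
  obtain ⟨u, hu, rfl⟩ := Finset.mem_image.1 hs
  obtain ⟨p, hp, he⟩ := hU u hu
  refine ⟨p, hp, ?_⟩
  rw [← he]
  have h1 : D ^ u / D ^ j = D ^ (u - j) := Nat.pow_div (hjU u hu).le (by omega)
  have h2 : (D : ℤ) ^ u = (D : ℤ) ^ (u - j) * (D : ℤ) ^ j := by
    rw [← pow_add]
    congr 1
    have := hjU u hu
    omega
  simp only [h1]
  push_cast
  rw [h2]
  ring

lemma powGood_mono {c : ℤ} {D : ℕ} {S T : Finset ℕ} (h : T ⊆ S) (hS : PowGood c D S) :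
    PowGood c D T := hS.mono fun _ hq => ⟨hq.1, fun s hs => hq.2 s (h hs)⟩

/-- the difference form for powers -/
theorem pow_diff (k m : ℕ) : ∃ K : ℕ, ∀ (c : Fin k → ℤ) (D : Fin k → ℕ), (∀ i, 2 ≤ D i) →
    (∀ i, IsCoprime (c i) (D i : ℤ)) → ∀ E : Finset ℕ, K ≤ E.card →
      ∃ j ∈ E, ∃ U ⊆ E, U.card = m ∧ (∀ u ∈ U, j < u) ∧
        ∀ i, PowGood (c i) (D i) (U.image (fun u => u - j)) := by
  obtain ⟨K, hK⟩ := finite_part k m
  refine ⟨K, fun c D hD hc E hE => ?_⟩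
  obtain ⟨j, hj, U, hU, hUm, hjU, hg⟩ := hK _ _ (fun i => adm_pow (hD i) (hc i)) E hE
  exact ⟨j, hj, U, hU, hUm, hjU, fun i => good_pow (hD i) hjU (hg i)⟩

theorem result :
    -- finitely many admissible sequences: common indices, uniformly
    (∀ k m : ℕ, ∃ K : ℕ, ∀ (A : Fin k → ℕ → ℕ) (B : Fin k → ℕ → ℤ),
      (∀ i, Adm (A i) (B i)) → ∀ E : Finset ℕ, K ≤ E.card →
        ∃ j ∈ E, ∃ U ⊆ E, U.card = m ∧ (∀ u ∈ U, j < u) ∧ ∀ i, Good (A i) (B i) j U) ∧
    -- countably many admissible sequences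
    (∀ (A : ℕ → ℕ → ℕ) (B : ℕ → ℕ → ℤ), (∀ i, Adm (A i) (B i)) → ∀ E : Set ℕ, E.Infinite →
      ∃ J ⊆ E, J.Infinite ∧ ∀ i, ∃ N : ℕ, ∀ j ∈ J, N ≤ j →
        ∀ U : Finset ℕ, (U : Set ℕ) ⊆ J → (∀ u ∈ U, j < u) → Good (A i) (B i) j U) ∧
    -- powers: `m` common exponents in `[1, K]`, multiples of any given `t`, for all `k` pairs
    (∀ k m : ℕ, ∃ K : ℕ, ∀ (c : Fin k → ℤ) (D : Fin k → ℕ), (∀ i, 2 ≤ D i) →
      (∀ i, IsCoprime (c i) (D i : ℤ)) → ∀ t : ℕ, 1 ≤ t →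
        ∃ S : Finset ℕ, S.card = m ∧ (∀ s ∈ S, 1 ≤ s ∧ s ≤ K) ∧
          ∀ i, PowGood (c i) (D i) (S.image (fun s => t * s))) ∧
    -- powers: the common exponents have bounded gaps
    (∀ (k : ℕ) (c : Fin k → ℤ) (D : Fin k → ℕ), (∀ i, 2 ≤ D i) →
      (∀ i, IsCoprime (c i) (D i : ℤ)) → ∃ L : ℕ, ∀ x : ℕ, ∃ s : ℕ, x < s ∧ s ≤ x + L ∧
        ∀ i, PowGood (c i) (D i) {s}) ∧
    -- powers: an infinite set of exponents good for all pairs
    (∀ E : Set ℕ, E.Infinite → ∃ J ⊆ E, J.Infinite ∧ ∀ (c : ℤ) (D : ℕ), 2 ≤ D →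
      IsCoprime c (D : ℤ) → ∃ N : ℕ, ∀ j ∈ J, N ≤ j → ∀ U : Finset ℕ, (U : Set ℕ) ⊆ J →
        (∀ u ∈ U, j < u) → PowGood c D (U.image (fun u => u - j))) := by
  classical
  refine ⟨finite_part, infinite_part, fun k m => ?_, fun k c D hD hc => ?_, fun E hE => ?_⟩
  · obtain ⟨K, hK⟩ := pow_diff k m
    refine ⟨K, fun c D hD hc t ht => ?_⟩
    obtain ⟨j, hj, U, hU, hUm, hjU, hg⟩ := hK c D hD hc
      ((Finset.range (K + 1)).image (fun r => t * r)) (by
        rw [Finset.card_image_of_injective, Finset.card_range]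
        · omega
        · intro x y hxy
          exact Nat.eq_of_mul_eq_mul_left (by omega) hxy)
    obtain ⟨j', hj', rfl⟩ := Finset.mem_image.1 hj
    have hdiv : ∀ u ∈ U, ∃ r, r ≤ K ∧ u = t * r ∧ j' < r := by
      intro u hu
      obtain ⟨r, hr, rfl⟩ := Finset.mem_image.1 (hU hu)
      exact ⟨r, by have := Finset.mem_range.1 hr; omega, rfl,
        lt_of_mul_lt_mul_left (hjU _ hu) (Nat.zero_le t)⟩
    refine ⟨U.image (fun u => u / t - j'), ?_, ?_, fun i => ?_⟩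
    · rw [Finset.card_image_of_injOn, hUm]
      intro x hx y hy hxy
      obtain ⟨r, _, rfl, hr⟩ := hdiv x hx
      obtain ⟨r', _, rfl, hr'⟩ := hdiv y hy
      simp only [Nat.mul_div_cancel_left _ (show 0 < t by omega)] at hxy
      have : r = r' := by omega
      rw [this]
    · intro s hs
      obtain ⟨u, hu, rfl⟩ := Finset.mem_image.1 hs
      obtain ⟨r, hrK, rfl, hr⟩ := hdiv u hu
      rw [Nat.mul_div_cancel_left _ (show 0 < t by omega)]
      omega
    · refine powGood_mono ?_ (hg i)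
      intro s hs
      obtain ⟨s', hs', rfl⟩ := Finset.mem_image.1 hs
      obtain ⟨u, hu, rfl⟩ := Finset.mem_image.1 hs'
      obtain ⟨r, hrK, rfl, hr⟩ := hdiv u hu
      refine Finset.mem_image.2 ⟨t * r, hu, ?_⟩
      rw [Nat.mul_div_cancel_left _ (show 0 < t by omega), Nat.mul_sub]
  · obtain ⟨K, hK⟩ := pow_diff k 1
    apply Pool.Agent.H672R3.Sim.add_synd (D := fun s => ∀ i, PowGood (c i) (D i) {s}) (C := K + 1)
    intro S hS
    have hne : S.Nonempty := by rw [← Finset.card_pos]; omega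
    set M := S.min' hne with hM
    have hMle : ∀ s ∈ S, M ≤ s := fun s hs => S.min'_le s hs
    have hinj : Set.InjOn (fun s : ℤ => (s - M).toNat) (S : Set ℤ) := by
      intro x hx y hy hxy
      have h1 := hMle x hx
      have h2 := hMle y hy
      simp only at hxy
      omega
    obtain ⟨j, hj, U, hU, hUm, hjU, hg⟩ := hK c D hD hc (S.image (fun s : ℤ => (s - M).toNat)) (by
      rw [Finset.card_image_of_injOn hinj]; omega)
    obtain ⟨u, rfl⟩ := Finset.card_eq_one.1 hUm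
    obtain ⟨a, ha, rfl⟩ := Finset.mem_image.1 hj
    obtain ⟨b, hb, hbu⟩ := Finset.mem_image.1 (hU (Finset.mem_singleton_self u))
    have h1 := hjU u (Finset.mem_singleton_self u)
    have h2 := hMle a ha
    have h3 := hMle b hb
    refine ⟨b, hb, a, ha, fun hab => ?_, fun i => ?_⟩
    · subst hab
      omega
    · have h4 := hg i
      rw [Finset.image_singleton] at h4
      have h5 : (b - a).natAbs = u - (a - M).toNat := by omega
      rw [h5]
      exact h4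
  · -- enumerate the pairs
    let P : ℕ → Prop := fun n => 2 ≤ ((Nat.unpair n).2) ∧
      IsCoprime ((Equiv.intEquivNat.symm (Nat.unpair n).1 : ℤ)) (((Nat.unpair n).2 : ℕ) : ℤ)
    let cc : ℕ → ℤ := fun n => if P n then Equiv.intEquivNat.symm (Nat.unpair n).1 else 1
    let dd : ℕ → ℕ := fun n => if P n then (Nat.unpair n).2 else 2
    have hd : ∀ n, 2 ≤ dd n := by
      intro n
      by_cases h : P n
      · simp only [dd, if_pos h]; exact h.1
      · simp only [dd, if_neg h]; exact le_rfl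
    have hcd : ∀ n, IsCoprime (cc n) (dd n : ℤ) := by
      intro n
      by_cases h : P n
      · simp only [cc, dd, if_pos h]; exact h.2
      · simp only [cc, dd, if_neg h]; exact isCoprime_one_left
    obtain ⟨J, hJE, hJ, h⟩ := infinite_part (fun n r => dd n ^ r)
      (fun n r => cc n * (1 - (dd n : ℤ) ^ r)) (fun n => adm_pow (hd n) (hcd n)) E hE
    refine ⟨J, hJE, hJ, fun c D hD hc => ?_⟩
    obtain ⟨N, hN⟩ := h (Nat.pair (Equiv.intEquivNat c) D)
    have hP : P (Nat.pair (Equiv.intEquivNat c) D) := by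
      simp only [P, Nat.unpair_pair, Equiv.symm_apply_apply]
      exact ⟨hD, hc⟩
    have e1 : cc (Nat.pair (Equiv.intEquivNat c) D) = c := by
      simp only [cc, if_pos hP, Nat.unpair_pair, Equiv.symm_apply_apply]
    have e2 : dd (Nat.pair (Equiv.intEquivNat c) D) = D := by
      simp only [dd, if_pos hP, Nat.unpair_pair]
    rw [e1, e2] at hN
    exact ⟨N, fun j hj hNj U hU hjU => good_pow hD hjU (hN j hj hNj U hU hjU)⟩

end Pool.Agent.Results.MP_8bf9c2_nt.CommonExponents
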