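import Pool.Agent.H560R3.GB.AP3
import Pool.Agent.H560R3.GB.Defs

/-!
# Primes `q` for which `a + q d` is prime: the asymptotic formula of Hardy and Littlewood for almost all
members `a` of arbitrary families of nearly minimal additive energy, and all small `d` simultaneously

Definitions used, from `Pool.Agent.H560R3.GB`: `cnt d a N`: the number of primes `q ≤ N` for which
`a + q d` is prime; `sing n = 2 C₂ ∏_{p ∣ n, p > 2} (p - 1) / (p - 2)`, where `C₂` is the twin prime
constant; `energy h x s`: the number of solutions of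
`s (v 1) + ... + s (v h) = s (w 1) + ... + s (w h)` with entries in `{1, ..., x}`; `reps h x s t`: the
number of representations `t = s (v 1) + ... + s (v h)`.

The proof uses the exponential sums of the primes and of their sieve model, the bilinear estimate and
the main term of the starting files `Pool/Agent/H373R2/T7/`.
-/

set_option autoImplicit false

namespace Pool.Agent.Results.MP_8bf9c2_nt.FamiliesOfConstants

open Finset Pool.Agent.H560R3.GB

/-- The number of primes `q ≤ N` with `a + q d` prime is within a relative error `ε` of the prediction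
`2 C₂ ∏_{p ∣ a d, p > 2} (p - 1) / (p - 2) * N / log ^ 2 N`, for all `d ≤ log ^ E N` which are coprime to
`a` and for which `a d` is even. -/
def Holds (ε : ℝ) (E N a : ℕ) : Prop :=
  ∀ d : ℕ, 1 ≤ d → (d : ℝ) ≤ Real.log N ^ E → Nat.Coprime a d → Even (d * a) →
    |(cnt d a N : ℝ) - sing (d * a) * (N / Real.log N ^ 2)| ≤ ε * (sing (d * a) * (N / Real.log N ^ 2))

open Classical in
/-- The number of `m ∈ {1, ..., x}` for which `Holds` fails for `a = s m`. -/
noncomputable def exceptions (ε : ℝ) (E N x : ℕ) (s : ℕ → ℕ) : ℕ :=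
  ((Icc 1 x).filter (fun m => ¬ Holds ε E N (s m))).card

lemma energy_eq (h x : ℕ) (s : ℕ → ℕ) :
    Pool.Agent.H373R2.T7.energy h x (fun m => (s m : ℤ)) = energy h x s := by
  unfold energy Pool.Agent.H373R2.T7.energy
  congr 1
  apply filter_congr
  intro q _
  change (∑ i, ((s (q.1 i) : ℕ) : ℤ) = ∑ i, ((s (q.2 i) : ℕ) : ℤ)) ↔ _
  constructor
  · intro h; exact_mod_cast h
  · intro h; exact_mod_cast h

lemma energy_le (h x J : ℕ) (s : ℕ → ℕ) (hJ : ∀ t, reps h x s t ≤ J) : energy h x s ≤ x ^ h * J := by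
  unfold energy
  rw [card_filter, sum_product]
  calc ∑ v ∈ Fintype.piFinset fun _ : Fin h => Icc 1 x, ∑ w ∈ Fintype.piFinset fun _ : Fin h => Icc 1 x,
        (if ∑ i, s (v i) = ∑ i, s (w i) then 1 else 0) ≤
      ∑ _v ∈ Fintype.piFinset fun _ : Fin h => Icc 1 x, J := by
        apply sum_le_sum
        intro v _
        rw [← card_filter]
        refine le_trans (le_of_eq ?_) (hJ (∑ i, s (v i)))
        unfold reps
        congr 1
        apply filter_congr
        intro w _
        exact eq_comm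
    _ = x ^ h * J := by
        rw [sum_const, Fintype.card_piFinset, prod_const, card_univ, Fintype.card_fin, Nat.card_Icc,
          smul_eq_mul, Nat.add_sub_cancel]

theorem first (h B C E U : ℕ) (ε : ℝ) (hε : 0 < ε) :
    ∃ N₀ : ℕ, ∀ N : ℕ, N₀ ≤ N → ∀ (x : ℕ) (s : ℕ → ℕ),
      (∀ m ∈ Icc 1 x, 1 ≤ s m ∧ s m ≤ B * N) →
      (energy h x s : ℝ) * N ≤ Real.log N ^ C * (x : ℝ) ^ (2 * h) →
      (exceptions ε E N x s : ℝ) ≤ x / Real.log N ^ U := by
  obtain ⟨N₀, h0⟩ := ap_main h C B E U ε hε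
  refine ⟨N₀, fun N hN x s hs hE => ?_⟩
  obtain ⟨S, h1, h2⟩ := h0 N hN x s hs (by rw [energy_eq]; exact hE)
  refine le_trans ?_ h1
  unfold exceptions
  classical
  have h3 : (Icc 1 x).filter (fun m => ¬ Holds ε E N (s m)) ⊆ S := by
    intro m hm
    rw [mem_filter] at hm
    by_contra hc
    exact hm.2 (fun d hd hdL hcop hev => h2 m hm.1 hc d hd hdL hcop hev)
  exact_mod_cast card_le_card (by convert h3)

/-- Let `h`, `B`, `C`, `E`, `U` and `ε > 0` be fixed, and let `N` be large.

* Let `s 1, ..., s x` be any family of positive integers in `[1, B N]` whose additive energy of order `h`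
  is at most `log ^ C N` times `x ^ (2 h) / N`. Then for all but at most `x / log ^ U N` of the members
  `a` of the family the following holds for all `d ≤ log ^ E N` simultaneously: if `a` and `d` are coprime
  and `a d` is even, then the number of primes `q ≤ N` for which `a + q d` is prime is
  `(1 + O(ε)) 2 C₂ ∏_{p ∣ a d, p > 2} (p - 1) / (p - 2) * N / log ^ 2 N`, with an implied constant `1`.
* In particular this holds if no integer has more than `J` representations as a sum of `h` members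
  (a `B_h[J]`-family) and `x ^ h ≥ N / log ^ C N`. -/
theorem result (h B C E U : ℕ) (ε : ℝ) (hε : 0 < ε) :
    (∃ N₀ : ℕ, ∀ N : ℕ, N₀ ≤ N → ∀ (x : ℕ) (s : ℕ → ℕ),
      (∀ m ∈ Icc 1 x, 1 ≤ s m ∧ s m ≤ B * N) →
      (energy h x s : ℝ) * N ≤ Real.log N ^ C * (x : ℝ) ^ (2 * h) →
      (exceptions ε E N x s : ℝ) ≤ x / Real.log N ^ U) ∧
    (∀ J : ℕ, ∃ N₀ : ℕ, ∀ N : ℕ, N₀ ≤ N → ∀ (x : ℕ) (s : ℕ → ℕ),
      (∀ m ∈ Icc 1 x, 1 ≤ s m ∧ s m ≤ B * N) →
      (∀ t, reps h x s t ≤ J) → (N : ℝ) ≤ Real.log N ^ C * (x : ℝ) ^ h →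
      (exceptions ε E N x s : ℝ) ≤ x / Real.log N ^ U) := by
  refine ⟨first h B C E U ε hε, fun J => ?_⟩
  obtain ⟨N₀, h0⟩ := first h B (C + 1) E U ε hε
  obtain ⟨N₁, h1⟩ := Pool.Agent.H373R2.T7.ev_L' (J + 1)
  refine ⟨N₀ + N₁ + 1, fun N hN x s hs hJ hx => ?_⟩
  apply h0 N (by omega) x s hs
  have hL := h1 N (by omega)
  have hJ0 : (0 : ℝ) ≤ J := Nat.cast_nonneg _
  have hN0 : (0 : ℝ) ≤ N := Nat.cast_nonneg _
  have hx0 : (0 : ℝ) ≤ (x : ℝ) ^ h := by positivity
  have h2 : (energy h x s : ℝ) ≤ (x : ℝ) ^ h * J := by exact_mod_cast energy_le h x J s hJ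
  have hL0 : 0 ≤ Real.log N := by linarith
  calc (energy h x s : ℝ) * N ≤ ((x : ℝ) ^ h * J) * (Real.log N ^ C * (x : ℝ) ^ h) :=
        mul_le_mul h2 hx hN0 (mul_nonneg hx0 hJ0)
    _ = J * (Real.log N ^ C * (x : ℝ) ^ (2 * h)) := by ring
    _ ≤ Real.log N * (Real.log N ^ C * (x : ℝ) ^ (2 * h)) := by
        apply mul_le_mul_of_nonneg_right (by linarith) (by positivity)
    _ = Real.log N ^ (C + 1) * (x : ℝ) ^ (2 * h) := by ring

end Pool.Agent.Results.MP_8bf9c2_nt.FamiliesOfConstants
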