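import Pool.Agent.H732R3.PairA
import Pool.Agent.H732R3.QuarterB
import Pool.Agent.H361R2.Density

/-!
# Bounded gaps between the good `a` for one of the products of consecutive terms of `d_1, ..., d_4`

For all positive integers `d_1, ..., d_4` there is `C` such that every integer `A` is at distance at most
`C` from an integer `a` such that, for some `1 ≤ i ≤ j ≤ 4` and `d = d_i ... d_j`, the pair `(a, d)`
satisfies the hypotheses and the conclusion of the question, with at least `x ^ (1 - η)` primes `q ≤ x`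
such that `a + q d` is prime, for arbitrarily large `x`, for every `η > 0`.

The coloured Maynard-Tao theorem (`Pool.Agent.H362R2.CM`) is from the starting files.
-/

open Filter Finset

namespace Pool.Agent.Results.MP_8bf9c2_nt.FourConsecutiveProducts

theorem result : ∀ d : Fin 4 → ℕ, (∀ l, 1 ≤ d l) → ∃ C : ℕ, ∀ A : ℤ,
    ∃ (i j : Fin 4) (a D : ℤ), i ≤ j ∧ D = ∏ l ∈ Icc i j, (d l : ℤ) ∧ |a - A| ≤ C ∧
      Int.gcd a D = 1 ∧ 2 ∣ a * D ∧
      {q : ℕ | q.Prime ∧ ∃ p : ℕ, p.Prime ∧ a + q * D = p}.Infinite ∧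
      ∀ η : ℝ, 0 < η → ∃ᶠ x : ℝ in atTop, x ^ (1 - η) ≤
        ({q : ℕ | (q.Prime ∧ ∃ p : ℕ, p.Prime ∧ a + q * D = p) ∧ (q : ℝ) ≤ x}.ncard : ℝ) := by
  intro d hd
  obtain ⟨C, hC⟩ := Pool.Agent.H732R3.PairA.chain Pool.Agent.H732R3.BigQ.quarterB d hd
  refine ⟨C, fun A => ?_⟩
  obtain ⟨i, j, hij, a, ha, hBig⟩ := hC A
  have hinf := hBig.infinite
  have hpos : (0 : ℤ) < ((∏ l ∈ Icc i j, d l : ℕ) : ℤ) := by
    have : 0 < ∏ l ∈ Icc i j, d l := Finset.prod_pos fun l _ => hd l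
    exact_mod_cast this
  refine ⟨i, j, a, ((∏ l ∈ Icc i j, d l : ℕ) : ℤ), hij, by push_cast; rfl, ha,
    Pool.Agent.H361R2.good_gcd hpos hinf, Pool.Agent.H361R2.good_parity hpos hinf, hinf, hBig⟩

end Pool.Agent.Results.MP_8bf9c2_nt.FourConsecutiveProducts
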